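import Mathlib
import Pool.Agent.Q176.SepCont

namespace Pool.Agent.Results.MP_63c1c3_gt.CroCompacta

open Set Topology Q176.SepCont

universe u v

/-- **MP_63c1c3_gt, Q1 (negated form).** For all Polish spaces `X`, `Y`, every compact subspace
`K` of `S_cro(X × Y)` is metrizable. -/
theorem result (X : Type u) (Y : Type v) [TopologicalSpace X] [TopologicalSpace Y]
    [PolishSpace X] [PolishSpace Y] (K : Set (Scro X Y)) (hK : IsCompact K) :
    TopologicalSpace.MetrizableSpace K := by
  haveI : CompactSpace K := isCompact_iff_compactSpace.1 hK
  exact cro_compact_metrizable (fun k : K => (k : Scro X Y)) continuous_subtype_val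
    Subtype.val_injective

end Pool.Agent.Results.MP_63c1c3_gt.CroCompacta
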